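import Pool.Agent.Run7.h128.BL.Exp

/-!
The equivalence of the conditions.
-/

set_option autoImplicit false
set_option linter.unusedSectionVars false

namespace Run7.h128.BL

open NumberField Height Finset MvPolynomial
open Run7.h128.AU

variable {k : Type} [Field k] [NumberField k] {n m : ℕ} {κ : Type}

theorem eval₂_poly {R R' : Type} [CommRing R] [CommRing R'] (σ : R →+* R')
    (p : Fin (n + 1) → Polynomial R') (F : MvPolynomial (Fin (n + 1)) R) (t : R') :
    (eval₂ (Polynomial.C.comp σ) p F).eval t = eval₂ σ (fun a => (p a).eval t) F := by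
  have h1 := MvPolynomial.hom_eval₂ F (Polynomial.C.comp σ) (Polynomial.evalRingHom t) p
  refine Eq.trans h1 ?_
  congr 1
  ext a
  simp

/-- the embedding of an extension -/
theorem exists_embedding (σ : k →+* ℂ) (L : Type) [Field L] [NumberField L] [Algebra k L] :
    ∃ τ : L →+* ℂ, τ.comp (algebraMap k L) = σ := by
  let _ : Algebra k ℂ := σ.toAlgebra
  have : Module.Finite k L := Module.Finite.of_restrictScalars_finite ℚ k L
  exact ⟨(IsAlgClosed.lift : L →ₐ[k] ℂ).toRingHom, RingHom.ext fun a =>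
    (IsAlgClosed.lift : L →ₐ[k] ℂ).commutes a⟩

/-- a curve over a number field which meets the complement of `V'` -/
theorem not_gm (σ : k →+* ℂ) (G : Fin m → MvPolynomial (Fin (n + 1)) k)
    (T : MvPolynomial (Fin (n + 1)) k) (G' : κ → MvPolynomial (Fin (n + 1)) k)
    (h : GmIn σ G T G') (L : Type) [Field L] [NumberField L] [Algebra k L]
    (p : Fin (n + 1) → Polynomial L) (hp : ∀ i, aeval p (G i) = 0)
    (c : L) (N : ℕ) (hc : c ≠ 0) (hT : aeval p T = Polynomial.C c * Polynomial.X ^ N)
    (hnc : ∃ a b z w, (p a).eval z * (p b).eval w ≠ (p b).eval z * (p a).eval w) (l : κ) :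
    aeval p (G' l) = 0 := by
  obtain ⟨τ, hτ⟩ := exists_embedding σ L
  have hmap : ∀ F : MvPolynomial (Fin (n + 1)) k,
      eval₂ (Polynomial.C.comp σ) (fun a => (p a).map τ) F = (aeval p F).map τ := by
    intro F
    have h1 := MvPolynomial.hom_eval₂ F (algebraMap k (Polynomial L)) (Polynomial.mapRingHom τ) p
    refine Eq.symm (Eq.trans h1 ?_)
    congr 1
    rw [← hτ]
    ext a
    simp
  obtain ⟨a, b, z, w, hab⟩ := hnc
  have h1 := h (fun a => (p a).map τ) (fun i => by rw [hmap, hp i, Polynomial.map_zero])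
    ⟨τ c, N, (map_ne_zero τ).2 hc, by
      rw [hmap, hT, Polynomial.map_mul, Polynomial.map_pow, Polynomial.map_C, Polynomial.map_X]⟩
    ⟨a, b, τ z, τ w, by
      simp only [Polynomial.eval_map]
      rw [Polynomial.eval₂_at_apply, Polynomial.eval₂_at_apply, Polynomial.eval₂_at_apply,
        Polynomial.eval₂_at_apply, ← map_mul, ← map_mul]
      exact fun h => hab (τ.injective h)⟩ l
  rw [hmap] at h1
  exact Polynomial.map_injective τ τ.injective (by rw [h1, Polynomial.map_zero])

/-- (i) implies the inequality -/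
theorem bounded_of_gm (σ : k →+* ℂ) (e : Fin m → ℕ) (G : Fin m → MvPolynomial (Fin (n + 1)) k)
    (hG : ∀ i, (G i).IsHomogeneous (e i)) (T : MvPolynomial (Fin (n + 1)) k) (δ : ℕ)
    (hT : T.IsHomogeneous δ) (G' : κ → MvPolynomial (Fin (n + 1)) k)
    (h : GmIn σ G T G') : SumsBounded G T δ G' := by
  intro L _ _ _ S r
  have haev : ∀ (x : Fin (n + 1) → L) (F : MvPolynomial (Fin (n + 1)) k),
      eval x (MvPolynomial.map (algebraMap k L) F) = aeval x F := by
    intro x F
    rw [eval_map]
    rfl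
  have haevp : ∀ (x : Fin (n + 1) → Polynomial L) (F : MvPolynomial (Fin (n + 1)) k),
      aeval x (MvPolynomial.map (algebraMap k L) F) = aeval x F := by
    intro x F
    rw [aeval_map_algebraMap]
  have hend : ∀ (y : Fin r → Fin (n + 1) → L) (l : Fin r → Fin (n + 1) → ℕ) (N : ℕ),
      (∀ i, aeval (curve l y) (G i) = 0) → aeval (fun a => ∑ j, y j a) T ≠ 0 →
      aeval (curve l y) T = Polynomial.C (aeval (fun a => ∑ j, y j a) T) * Polynomial.X ^ N →
      (∃ a b, curve l y a * Polynomial.C (∑ j, y j b) ≠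
        curve l y b * Polynomial.C (∑ j, y j a)) →
      (∃ l, aeval (fun a => ∑ j, y j a) (G' l) ≠ 0) → False := by
    intro y l N h1 h2 h3 h4 h5
    obtain ⟨l', hl'⟩ := h5
    apply hl'
    obtain ⟨a, b, hab⟩ := h4
    have hone : ∀ a, (curve l y a).eval 1 = ∑ j, y j a := by
      intro a
      rw [curve_eval]
      simp
    have h6 := not_gm σ G T G' h L (curve l y) h1 _ N h2 h3 (by
      by_contra hcon
      push Not at hcon
      apply hab
      apply Polynomial.funext
      intro t
      rw [Polynomial.eval_mul, Polynomial.eval_mul, Polynomial.eval_C, Polynomial.eval_C,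
        ← hone, ← hone]
      exact hcon a b t 1) l'
    have h7 := congrArg (Polynomial.eval 1) h6
    have h8 := eval₂_poly (algebraMap k L) (curve l y) (G' l') 1
    rw [Polynomial.eval_zero] at h7
    have h9 : (eval₂ (Polynomial.C.comp (algebraMap k L)) (curve l y) (G' l')).eval 1 = 0 := h7
    rw [h9] at h8
    have h10 : (fun a => (curve l y a).eval 1) = fun a => ∑ j, y j a := funext hone
    rw [h10] at h8
    exact h8.symm
  rcases Nat.eq_zero_or_pos δ with hδ | hδ
  · -- projective varieties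
    obtain ⟨C, D, hCD⟩ := dichotomy (K := L) S n r m e
    obtain ⟨t₀, ht₀⟩ : ∃ t₀, T = MvPolynomial.C t₀ := by
      rw [hδ] at hT
      exact ⟨_, totalDegree_eq_zero_iff_eq_C.1 ((totalDegree_zero_iff_isHomogeneous _).2 hT)⟩
    set B : ℝ := ∑ i, coefHeight (MvPolynomial.map (algebraMap k L) (G i)) with hB
    have hB0 : 0 ≤ B := Finset.sum_nonneg fun i _ => logHeight_nonneg _
    refine ⟨|C| * (1 + B), fun y hx h0 hTx hG' => ?_⟩
    have ho := outside_nonneg S fun p : Fin r × Fin (n + 1) => y p.1 p.2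
    have hv := valDist_nonneg S δ (fun p : Fin r × Fin (n + 1) => y p.1 p.2)
      (aeval (fun a => ∑ j, y j a) T)
    rcases hCD (fun i => MvPolynomial.map (algebraMap k L) (G i)) (fun i => (hG i).map _) y hx
      (fun i => by rw [haev]; exact h0 i) with h1 | ⟨l, _, h2, h3⟩
    · refine h1.trans ?_
      have h4 : C * (1 + B + outside S fun p : Fin r × Fin (n + 1) => y p.1 p.2) ≤
          |C| * (1 + B + outside S fun p : Fin r × Fin (n + 1) => y p.1 p.2) :=
        mul_le_mul_of_nonneg_right (le_abs_self C) (by linarith)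
      refine h4.trans ?_
      rw [mul_assoc]
      refine mul_le_mul_of_nonneg_left ?_ (abs_nonneg C)
      nlinarith [mul_nonneg hB0 ho, mul_nonneg hB0 hv]
    · exfalso
      refine hend y l 0 (fun i => by rw [← haevp]; exact h2 i) hTx ?_ h3 hG'
      rw [ht₀, aeval_C, aeval_C, pow_zero, mul_one]
      rfl
  · obtain ⟨C, hC⟩ := dichotomyT e (fun i => MvPolynomial.map (algebraMap k L) (G i))
      (fun i => (hG i).map _) (MvPolynomial.map (algebraMap k L) T) δ hδ (hT.map _) S r
    refine ⟨C, fun y hx h0 hTx hG' => ?_⟩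
    rcases hC y hx (fun i => by rw [haev]; exact h0 i) (by rw [haev]; exact hTx) with
      h1 | ⟨l, N, h2, h3, h4⟩
    · rw [haev] at h1
      exact h1
    · exfalso
      rw [haevp, haev] at h3
      exact hend y l N (fun i => by rw [← haevp]; exact h2 i) hTx h3 h4 hG'

/-- the inequality implies finiteness -/
theorem finite_of_bounded (G : Fin m → MvPolynomial (Fin (n + 1)) k)
    (T : MvPolynomial (Fin (n + 1)) k) (δ : ℕ) (G' : κ → MvPolynomial (Fin (n + 1)) k)
    (h : SumsBounded G T δ G') : SumsFinite G T δ G' := by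
  intro L _ _ _ S r
  obtain ⟨C, hC⟩ := h L S r
  have hC1 : 1 ≤ max C 1 := le_max_right _ _
  refine ⟨1 / (2 * max C 1), by positivity, ?_⟩
  refine (Pool.Agent.TH409.SH.northcott_proj (n := n) L (Real.exp (2 * max C 1))).subset ?_
  rintro P ⟨y, hx, hP, h0, hTx, hG', hy⟩
  refine ⟨_, hx, hP, ?_⟩
  have ho := outside_nonneg S fun p : Fin r × Fin (n + 1) => y p.1 p.2
  have hv := valDist_nonneg S δ (fun p : Fin r × Fin (n + 1) => y p.1 p.2)
    (aeval (fun a => ∑ j, y j a) T)
  have h6 : logHeight (fun a => ∑ j, y j a) ≤ max C 1 * (1 +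
      (outside S fun p : Fin r × Fin (n + 1) => y p.1 p.2) +
      valDist S δ (fun p : Fin r × Fin (n + 1) => y p.1 p.2) (aeval (fun a => ∑ j, y j a) T)) :=
    (hC y hx h0 hTx hG').trans (mul_le_mul_of_nonneg_right (le_max_left _ _) (by linarith))
  have h7 : max C 1 * (1 / (2 * max C 1) * logHeight (fun a => ∑ j, y j a)) =
      logHeight (fun a => ∑ j, y j a) / 2 := by
    field_simp
  have h8 : max C 1 * ((outside S fun p : Fin r × Fin (n + 1) => y p.1 p.2) +
      valDist S δ (fun p : Fin r × Fin (n + 1) => y p.1 p.2) (aeval (fun a => ∑ j, y j a) T)) ≤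
      logHeight (fun a => ∑ j, y j a) / 2 := by
    rw [← h7]
    exact mul_le_mul_of_nonneg_left hy (by linarith)
  rw [← Real.log_le_iff_le_exp (mulHeight_pos _), ← logHeight_eq_log_mulHeight]
  nlinarith

/-- the points of a curve over a number field at the powers of 2 -/
theorem points_of_curve (L : Type) [Field L] [NumberField L] [Algebra k L]
    (p : Fin (n + 1) → Polynomial L)
    (hnc : ∃ a b z w, (p a).eval z * (p b).eval w ≠ (p b).eval z * (p a).eval w)
    (g : Polynomial L) (hg : g ≠ 0) (B : ℝ) :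
    ∃ c : ℕ, (fun a => (p a).eval ((2 : L) ^ c)) ≠ 0 ∧ g.eval ((2 : L) ^ c) ≠ 0 ∧
      B < logHeight (fun a => (p a).eval ((2 : L) ^ c)) := by
  have hinj : Function.Injective fun c : ℕ => (2 : L) ^ c := by
    intro a b hab
    have h1 : ((2 ^ a : ℕ) : L) = ((2 ^ b : ℕ) : L) := by
      push_cast
      exact hab
    exact Nat.pow_right_injective le_rfl (Nat.cast_injective h1)
  have hU : (Set.range (fun c : ℕ => (2 : L) ^ c) \ {T : L | g.IsRoot T}).Infinite :=
    (Set.infinite_range_of_injective hinj).sdiff (Polynomial.finite_setOfPred_isRoot hg)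
  obtain ⟨T, ⟨⟨c, rfl⟩, hT⟩, ht1, ht2⟩ := curve_unbounded p hnc _ hU B
  exact ⟨c, ht1, hT, ht2⟩

theorem aeval_eval {L : Type} [Field L] [Algebra k L] (p : Fin (n + 1) → Polynomial L)
    (F : MvPolynomial (Fin (n + 1)) k) (t : L) :
    (aeval p F).eval t = aeval (fun a => (p a).eval t) F :=
  eval₂_poly (algebraMap k L) p F t

/-- heights of a finite set of points are bounded -/
theorem bounded_of_finite {L : Type} [Field L] [NumberField L]
    (Z : Set (Projectivization L (Fin (n + 1) → L))) (hZ : Z.Finite) :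
    ∃ B : ℝ, ∀ (x : Fin (n + 1) → L) (h : x ≠ 0), Projectivization.mk L x h ∈ Z →
      logHeight x ≤ B := by
  classical
  refine ⟨∑ P ∈ hZ.toFinset, logHeight P.rep, fun x h hx => ?_⟩
  obtain ⟨a, ha⟩ := Projectivization.exists_smul_eq_mk_rep L x h
  have h1 : logHeight (Projectivization.mk L x h).rep = logHeight x := by
    rw [← ha]
    exact logHeight_smul_eq_logHeight _ a.ne_zero
  rw [← h1]
  exact Finset.single_le_sum (f := fun P : Projectivization L (Fin (n + 1) → L) =>
    logHeight P.rep) (fun P _ => logHeight_nonneg _) (hZ.mem_toFinset.2 hx)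

/-- finiteness for sums of almost units implies (i) for the multiplicative group -/
theorem gm_of_finite (σ : k →+* ℂ) (G : Fin m → MvPolynomial (Fin (n + 1)) k)
    (T : MvPolynomial (Fin (n + 1)) k) (δ : ℕ) (G' : κ → MvPolynomial (Fin (n + 1)) k)
    (h : SumsFinite G T δ G') : GmIn σ G T G' := by
  classical
  by_contra hcon
  obtain ⟨L, iL, iN, iA, p, c, N, l, hp, hc, hT, hnc, hl⟩ := spec_curve σ G T G' hcon
  set M : ℕ := Finset.univ.sup (fun i => (p i).natDegree) + 1 with hM
  have hd : ∀ i, (p i).natDegree < M := fun i => by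
    have := Finset.le_sup (f := fun i => (p i).natDegree) (Finset.mem_univ i)
    omega
  obtain ⟨S, hS⟩ := exists_fin (fun q : Option (Option (Fin (n + 1) × Fin M)) =>
    q.elim (2 : L) (fun q => q.elim c (fun q => (p q.1).coeff q.2)))
  have hS2 : ∀ w, w ∉ S → w (2 : L) = 1 := fun w hw => hS w hw none two_ne_zero
  have hSc : ∀ w, w ∉ S → w c = 1 := fun w hw => hS w hw (some none) hc
  have hSp : ∀ w, w ∉ S → ∀ q : Fin (n + 1) × Fin M, (p q.1).coeff q.2 ≠ 0 →
      w ((p q.1).coeff q.2) = 1 := fun w hw q hq => hS w hw (some (some q)) hq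
  obtain ⟨ε, hε, hfin⟩ := h L S M
  obtain ⟨B, hB⟩ := bounded_of_finite _ hfin
  obtain ⟨j, hj0, hjg, hjB⟩ := points_of_curve (k := k) L p hnc _ hl B
  have hsum : (fun a => ∑ i : Fin M, (p a).coeff i * ((2 : L) ^ j) ^ (i : ℕ)) =
      fun a => (p a).eval ((2 : L) ^ j) := by
    funext a
    rw [Polynomial.eval_eq_sum_range' (hd a), Finset.sum_range]
  have hone : ∀ w, w ∉ S → ∀ q : Fin M × Fin (n + 1),
      (p q.2).coeff q.1 * ((2 : L) ^ j) ^ (q.1 : ℕ) ≠ 0 →
      w ((p q.2).coeff q.1 * ((2 : L) ^ j) ^ (q.1 : ℕ)) = 1 := by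
    intro w hw q hq
    rw [map_mul, map_pow, map_pow, hS2 w hw, one_pow, one_pow, mul_one]
    exact hSp w hw (q.2, q.1) (left_ne_zero_of_mul hq)
  have hTx : aeval (fun a => (p a).eval ((2 : L) ^ j)) T = c * ((2 : L) ^ j) ^ N := by
    rw [← aeval_eval, hT, Polynomial.eval_mul, Polynomial.eval_C, Polynomial.eval_pow,
      Polynomial.eval_X]
  have hTx0 : c * ((2 : L) ^ j) ^ N ≠ 0 :=
    mul_ne_zero hc (pow_ne_zero _ (pow_ne_zero _ two_ne_zero))
  have hne : ∃ q : Fin M × Fin (n + 1), (p q.2).coeff q.1 * ((2 : L) ^ j) ^ (q.1 : ℕ) ≠ 0 := by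
    by_contra hcon'
    push Not at hcon'
    apply hj0
    rw [← hsum]
    funext a
    exact Finset.sum_eq_zero fun i _ => hcon' (i, a)
  refine absurd (hB _ hj0 ⟨fun i a => (p a).coeff i * ((2 : L) ^ j) ^ (i : ℕ), ?_, ?_, ?_, ?_,
    ⟨l, ?_⟩, ?_⟩) (not_le.2 hjB)
  · rw [hsum]
    exact hj0
  · congr 1
    exact hsum.symm
  · intro i
    rw [hsum, ← aeval_eval, hp i, Polynomial.eval_zero]
  · rw [hsum, hTx]
    exact hTx0
  · rw [hsum, ← aeval_eval]
    exact hjg
  · rw [hsum, hTx, outside_eq S S _ hone, Finset.sdiff_self, Finset.sum_empty,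
      valDist_eq S S δ _ _ hone (fun w hw => by
        rw [map_mul, map_pow, map_pow, hSc w hw, hS2 w hw, one_pow, one_pow, one_mul]) hne,
      Finset.sdiff_self, Finset.sum_empty, add_zero]
    exact mul_nonneg hε.le (logHeight_nonneg _)

/-- (ii) implies (i) for the multiplicative group -/
theorem gm_of_integral (σ : k →+* ℂ) (G : Fin m → MvPolynomial (Fin (n + 1)) k)
    (T : MvPolynomial (Fin (n + 1)) k) (δ : ℕ) (hTδ : T.IsHomogeneous δ)
    (G' : κ → MvPolynomial (Fin (n + 1)) k)
    (h : IntegralFinite G T δ G') : GmIn σ G T G' := by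
  classical
  by_contra hcon
  obtain ⟨L, iL, iN, iA, p, c, N, l, hp, hc, hT, hnc, hl⟩ := spec_curve σ G T G' hcon
  set M : ℕ := Finset.univ.sup (fun i => (p i).natDegree) + 1 with hM
  have hd : ∀ i, (p i).natDegree < M := fun i => by
    have := Finset.le_sup (f := fun i => (p i).natDegree) (Finset.mem_univ i)
    omega
  obtain ⟨S₁, hS₁⟩ := exists_fin (fun q : Option (Option (Fin (n + 1) × Fin M)) =>
    q.elim (2 : L) (fun q => q.elim c (fun q => (p q.1).coeff q.2)))
  obtain ⟨S₂, hS₂⟩ := exists_fin (fun q : T.support => algebraMap k L (coeff q.1 T))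
  set S : Finset (FinitePlace L) := S₁ ∪ S₂ with hSdef
  have hS2 : ∀ w, w ∉ S → w (2 : L) = 1 := fun w hw =>
    hS₁ w (fun h => hw (Finset.mem_union_left _ h)) none two_ne_zero
  have hSc : ∀ w, w ∉ S → w c = 1 := fun w hw =>
    hS₁ w (fun h => hw (Finset.mem_union_left _ h)) (some none) hc
  have hSp : ∀ w, w ∉ S → ∀ q : Fin (n + 1) × Fin M, (p q.1).coeff q.2 ≠ 0 →
      w ((p q.1).coeff q.2) = 1 := fun w hw q hq =>
    hS₁ w (fun h => hw (Finset.mem_union_left _ h)) (some (some q)) hq
  have hST : ∀ w, w ∉ S → ∀ β, w (algebraMap k L (coeff β T)) ≤ 1 := by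
    intro w hw β
    by_cases hβ : coeff β T = 0
    · rw [hβ, map_zero, map_zero]
      exact zero_le_one
    · exact (hS₂ w (fun h => hw (Finset.mem_union_right _ h)) ⟨β, mem_support_iff.2 hβ⟩
        ((map_ne_zero (algebraMap k L)).2 hβ)).le
  obtain ⟨B, hB⟩ := bounded_of_finite _ (h L S)
  obtain ⟨j, hj0, hjg, hjB⟩ := points_of_curve (k := k) L p hnc _ hl B
  set x : Fin (n + 1) → L := fun a => (p a).eval ((2 : L) ^ j) with hx
  have hTx : aeval x T = c * ((2 : L) ^ j) ^ N := by
    rw [hx, ← aeval_eval, hT, Polynomial.eval_mul, Polynomial.eval_C, Polynomial.eval_pow,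
      Polynomial.eval_X]
  have hTx0 : aeval x T ≠ 0 := by
    rw [hTx]
    exact mul_ne_zero hc (pow_ne_zero _ (pow_ne_zero _ two_ne_zero))
  refine absurd (hB x hj0 ⟨x, hj0, rfl, ?_, hTx0, ?_, ⟨l, ?_⟩⟩) (not_le.2 hjB)
  · intro i
    rw [hx, ← aeval_eval, hp i, Polynomial.eval_zero]
  · intro w hw
    have hsup : ∀ a, w (x a) ≤ ⨆ a, w (x a) := fun a =>
      le_ciSup (f := fun a => w (x a)) (Set.finite_range _).bddAbove a
    have hna : IsNonarchimedean (w : L → ℝ) := fun a b => FinitePlace.add_le w a b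
    have hsup0 : 0 ≤ ⨆ a, w (x a) := (apply_nonneg w (x 0)).trans (hsup 0)
    have hle1 : ⨆ a, w (x a) ≤ 1 := by
      refine ciSup_le fun a => ?_
      show w ((p a).eval ((2 : L) ^ j)) ≤ 1
      rw [Polynomial.eval_eq_sum_range' (hd a), Finset.sum_range]
      have hterm : ∀ i : Fin M, w ((p a).coeff i * ((2 : L) ^ j) ^ (i : ℕ)) ≤ 1 := by
        intro i
        rw [map_mul, map_pow, map_pow, hS2 w hw, one_pow, one_pow, mul_one]
        by_cases h0 : (p a).coeff i = 0
        · rw [h0, map_zero]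
          exact zero_le_one
        · exact (hSp w hw (a, i) h0).le
      have h1 := hna.apply_sum_le_sup (s := (univ : Finset (Fin M)))
        (f := w) (l := fun i : Fin M => (p a).coeff i * ((2 : L) ^ j) ^ (i : ℕ))
        ⟨⟨0, by omega⟩, Finset.mem_univ _⟩
      refine h1.trans ?_
      exact Finset.sup'_le _ _ fun i _ => hterm i
    have hu : w (aeval x T) = 1 := by
      rw [hTx, map_mul, map_pow, map_pow, hSc w hw, hS2 w hw, one_pow, one_pow, one_mul]
    have hle : w (aeval x T) ≤ (⨆ a, w (x a)) ^ δ := by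
      have h1 : aeval x T = ∑ β ∈ T.support, algebraMap k L (coeff β T) * ∏ a, x a ^ β a := by
        rw [aeval_def, eval₂_eq']
      rw [h1]
      have hsne : T.support.Nonempty := by
        rw [Finset.nonempty_iff_ne_empty]
        intro h0
        apply hTx0
        rw [h1, h0, Finset.sum_empty]
      have h2 := hna.apply_sum_le_sup (s := T.support) (f := w)
        (l := fun β : Fin (n + 1) →₀ ℕ => algebraMap k L (coeff β T) * ∏ a, x a ^ β a) hsne
      refine h2.trans (Finset.sup'_le _ _ fun β hβ => ?_)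
      show w (algebraMap k L (coeff β T) * ∏ a, x a ^ β a) ≤ _
      rw [map_mul, map_prod]
      have hdeg : ∑ a, β a = δ := by
        have h3 : β.degree = δ := by
          by_contra hcc
          exact (mem_support_iff.1 hβ) (hTδ.coeff_eq_zero hcc)
        rw [← h3, Finsupp.degree_eq_sum]
      have h4 : ∏ a, w (x a ^ β a) ≤ (⨆ a, w (x a)) ^ δ := by
        rw [← hdeg, ← Finset.prod_pow_eq_pow_sum]
        refine Finset.prod_le_prod (fun a _ => apply_nonneg w _) fun a _ => ?_
        rw [map_pow]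
        exact pow_le_pow_left₀ (apply_nonneg w _) (hsup a) _
      calc w (algebraMap k L (coeff β T)) * ∏ a, w (x a ^ β a)
          ≤ 1 * (⨆ a, w (x a)) ^ δ :=
            mul_le_mul (hST w hw β) h4 (Finset.prod_nonneg fun a _ => apply_nonneg w _) zero_le_one
        _ = _ := one_mul _
    rw [hu] at hle ⊢
    refine le_antisymm hle ?_
    exact pow_le_one₀ hsup0 hle1
  · rw [hx, ← aeval_eval]
    exact hjg

end Run7.h128.BL
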