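import Pool.Agent.Run7.h128.AU.Fin

/-!
The distance of a value `u` of a form of degree `δ` from the units, relative to a family `y`.
-/

set_option autoImplicit false
set_option linter.unusedSectionVars false

namespace Run7.h128.BL

open NumberField Height Finset
open Run7.h128.AU

variable {K : Type} [Field K] [NumberField K]

/-- `∑_{w ∉ S} |log |u|_w - δ log max_i |y_i|_w|`, over the finite places -/
noncomputable def valDist (S : Finset (FinitePlace K)) (δ : ℕ) {ι : Type} [Fintype ι] (y : ι → K)
    (u : K) : ℝ :=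
  open Classical in ∑ᶠ w : FinitePlace K, if w ∈ S then 0 else
    |Real.log (w u) - δ * Real.log (⨆ j, w (y j))|

section

variable {ι : Type} [Fintype ι]

open Classical in
theorem valDist_eq (S T : Finset (FinitePlace K)) (δ : ℕ) (y : ι → K) (u : K)
    (hT : ∀ w, w ∉ T → ∀ i, y i ≠ 0 → w (y i) = 1) (hu : ∀ w, w ∉ T → w u = 1)
    (hy : ∃ i, y i ≠ 0) :
    valDist S δ y u = ∑ w ∈ T \ S, |Real.log (w u) - δ * Real.log (⨆ j, w (y j))| := by
  obtain ⟨i, hi⟩ := hy
  unfold valDist
  rw [finsum_eq_sum_of_support_subset (s := T \ S)]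
  · refine Finset.sum_congr rfl fun v hv => ?_
    rw [if_neg (Finset.mem_sdiff.1 hv).2]
  · intro v hv
    rw [Function.mem_support] at hv
    rw [Finset.mem_coe, Finset.mem_sdiff]
    by_cases h : v ∈ S
    · rw [if_pos h] at hv
      exact absurd rfl hv
    · refine ⟨?_, h⟩
      by_contra hc
      rw [if_neg h] at hv
      apply hv
      rw [hu v hc, sup_one v y (hT v hc) i hi, Real.log_one, mul_zero, sub_zero, abs_zero]

theorem valDist_nonneg (S : Finset (FinitePlace K)) (δ : ℕ) (y : ι → K) (u : K) :
    0 ≤ valDist S δ y u := by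
  classical
  unfold valDist
  refine finsum_nonneg fun w => ?_
  split
  · exact le_rfl
  · exact abs_nonneg _

/-- the distance of `u / y_i ^ δ` from the units -/
theorem tau_le_valDist (S : Finset (FinitePlace K)) (δ : ℕ) (y : ι → K) (u : K) (hu : u ≠ 0)
    (i : ι) (hi : y i ≠ 0) :
    tau (plS S) (u / y i ^ δ) ≤ valDist S δ y u + δ * outside S y := by
  classical
  obtain ⟨T, hT⟩ := exists_fin (fun o : Option ι => o.elim u y)
  have hTy : ∀ w, w ∉ T → ∀ i, y i ≠ 0 → w (y i) = 1 := fun w hw i hi => hT w hw (some i) hi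
  have hTu : ∀ w, w ∉ T → w u = 1 := fun w hw => hT w hw none hu
  rw [valDist_eq S T δ y u hTy hTu ⟨i, hi⟩, outside_eq S T y hTy, tau_fin]
  rw [finsum_eq_sum_of_support_subset (s := T \ S)]
  · rw [Finset.mul_sum, ← Finset.sum_add_distrib]
    refine Finset.sum_le_sum fun w hw => ?_
    rw [if_neg (Finset.mem_sdiff.1 hw).2]
    have hpi : 0 < w (y i) := w.1.pos hi
    have hpu : 0 < w u := w.1.pos hu
    have hM : 0 < ⨆ k, w (y k) := hpi.trans_le (le_sup w y i)
    have h1 : Real.log ((⨆ k, w (y k)) / w (y i)) ≤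
        ∑ k, if y k = 0 then 0 else Real.log ((⨆ j, w (y j)) / w (y k)) := by
      have h2 := Finset.single_le_sum (f := fun k => if y k = 0 then 0 else
        Real.log ((⨆ j, w (y j)) / w (y k))) (s := univ) (fun k _ => by
          show 0 ≤ if y k = 0 then 0 else Real.log ((⨆ j, w (y j)) / w (y k))
          split
          · exact le_rfl
          · exact term_nonneg w y k (by assumption)) (Finset.mem_univ i)
      simp only [if_neg hi] at h2
      exact h2
    have h3 := term_nonneg w y i hi
    rw [Real.log_div hM.ne' hpi.ne'] at h1 h3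
    have h4 : Real.log (w (u / y i ^ δ)) = (Real.log (w u) - δ * Real.log (⨆ k, w (y k))) +
        δ * (Real.log (⨆ k, w (y k)) - Real.log (w (y i))) := by
      rw [map_div₀, map_pow, Real.log_div hpu.ne' (pow_pos hpi δ).ne', Real.log_pow]
      ring
    rw [h4]
    refine (abs_add_le _ _).trans (add_le_add le_rfl ?_)
    have hδ : (0 : ℝ) ≤ δ := Nat.cast_nonneg δ
    rw [abs_of_nonneg (mul_nonneg hδ h3)]
    exact mul_le_mul_of_nonneg_left h1 hδ
  · intro w hw
    rw [Function.mem_support] at hw
    rw [Finset.mem_coe, Finset.mem_sdiff]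
    by_cases h : w ∈ S
    · rw [if_pos h] at hw
      exact absurd rfl hw
    · refine ⟨?_, h⟩
      by_contra hc
      rw [if_neg h] at hw
      apply hw
      rw [map_div₀, map_pow, hTu w hc, hTy w hc i hi, one_pow, div_one, Real.log_one, abs_zero]

end

end Run7.h128.BL
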