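import Pool.Agent.Run7.h128.BL.Dist

/-!
The dichotomy for the complement of a hypersurface section `T = 0`.
-/

set_option autoImplicit false
set_option linter.unusedSectionVars false

namespace Run7.h128.BL

open NumberField Height Filter Finset MvPolynomial
open Run7.h128.AU

variable {K : Type} [Field K] [NumberField K]

/-- renaming of the variables does not increase the height -/
theorem coefHeight_rename {α β : Type} (f : α → β) (hf : Function.Injective f)
    (G : MvPolynomial α K) : coefHeight (rename f G) ≤ coefHeight G := by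
  classical
  have h1 : ∀ b : (rename f G).support, ∃ a : G.support, Finsupp.mapDomain f a.1 = b.1 := by
    intro b
    obtain ⟨a, ha, ha'⟩ := coeff_rename_ne_zero f G b.1 (mem_support_iff.1 b.2)
    exact ⟨⟨a, mem_support_iff.2 ha'⟩, ha⟩
  choose g hg using h1
  have h2 : (fun b : (rename f G).support => coeff b.1 (rename f G)) =
      (fun a : G.support => coeff a.1 G) ∘ g := by
    funext b
    rw [Function.comp_apply, ← coeff_rename_mapDomain f hf, hg]
  unfold coefHeight
  rw [h2]
  exact logHeight_comp_le g _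

variable {n r : ℕ}

/-- the terms and the coordinates: `inr true` is the value of `T`, `inr false` a reference -/
abbrev Ix (n r : ℕ) := (Fin r × Fin (n + 1)) ⊕ Bool

/-- the coordinate of a term -/
def pr (n r : ℕ) : Ix n r → Fin (n + 1) ⊕ Bool := Sum.map Prod.snd id

theorem sum_inl (Y : Ix n r → K) (a : Fin (n + 1)) :
    ∑ i ∈ univ.filter (fun i => pr n r i = Sum.inl a), Y i = ∑ j, Y (Sum.inl (j, a)) := by
  rw [Finset.sum_filter, Fintype.sum_sum_type, Fintype.sum_prod_type]
  have h1 : ∑ b : Bool, (if pr n r (Sum.inr b) = Sum.inl a then Y (Sum.inr b) else 0) = 0 := by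
    refine Finset.sum_eq_zero fun b _ => if_neg ?_
    simp [pr]
  rw [h1, add_zero]
  refine Finset.sum_congr rfl fun j _ => ?_
  rw [Finset.sum_eq_single a]
  · rw [if_pos]
    rfl
  · intro b _ hb
    rw [if_neg]
    intro h
    exact hb (Sum.inl_injective h)
  · intro h
    exact absurd (Finset.mem_univ a) h

theorem sum_inr (Y : Ix n r → K) (b : Bool) :
    ∑ i ∈ univ.filter (fun i => pr n r i = Sum.inr b), Y i = Y (Sum.inr b) := by
  rw [Finset.sum_filter, Fintype.sum_sum_type]
  have h1 : ∑ p : Fin r × Fin (n + 1), (if pr n r (Sum.inl p) = Sum.inr b then Y (Sum.inl p) else 0)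
      = 0 := by
    refine Finset.sum_eq_zero fun p _ => if_neg ?_
    simp [pr]
  rw [h1, zero_add, Finset.sum_eq_single b]
  · rw [if_pos]
    rfl
  · intro c _ hc
    rw [if_neg]
    intro h
    exact hc (Sum.inr_injective h)
  · intro h
    exact absurd (Finset.mem_univ b) h

/-- the forms in the coordinates and the two further variables -/
noncomputable def forms {m : ℕ} (G : Fin m → MvPolynomial (Fin (n + 1)) K)
    (T : MvPolynomial (Fin (n + 1)) K) (δ : ℕ) (k : Fin (m + 1)) :
    MvPolynomial (Fin (n + 1) ⊕ Bool) K :=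
  Fin.lastCases (motive := fun _ => MvPolynomial (Fin (n + 1) ⊕ Bool) K)
    (X (Sum.inr true) * X (Sum.inr false) ^ (δ - 1) - rename Sum.inl T)
    (fun k => rename Sum.inl (G k)) k

theorem forms_last {m : ℕ} (G : Fin m → MvPolynomial (Fin (n + 1)) K)
    (T : MvPolynomial (Fin (n + 1)) K) (δ : ℕ) : forms G T δ (Fin.last m) =
      X (Sum.inr true) * X (Sum.inr false) ^ (δ - 1) - rename Sum.inl T := by
  unfold forms
  rw [Fin.lastCases_last]

theorem forms_cast {m : ℕ} (G : Fin m → MvPolynomial (Fin (n + 1)) K)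
    (T : MvPolynomial (Fin (n + 1)) K) (δ : ℕ) (k : Fin m) : forms G T δ k.castSucc =
      rename Sum.inl (G k) := by
  unfold forms
  rw [Fin.lastCases_castSucc]

theorem forms_homog {m : ℕ} (e : Fin m → ℕ) (G : Fin m → MvPolynomial (Fin (n + 1)) K)
    (hG : ∀ k, (G k).IsHomogeneous (e k)) (T : MvPolynomial (Fin (n + 1)) K) (δ : ℕ)
    (hδ : 1 ≤ δ) (hT : T.IsHomogeneous δ) (k : Fin (m + 1)) :
    (forms G T δ k).IsHomogeneous (Fin.lastCases (motive := fun _ => ℕ) δ e k) := by
  refine Fin.lastCases ?_ (fun k => ?_) k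
  · rw [forms_last, Fin.lastCases_last]
    refine IsHomogeneous.sub ?_ (hT.rename_isHomogeneous)
    have h1 := (isHomogeneous_X K (Sum.inr true : Fin (n + 1) ⊕ Bool)).mul
      ((isHomogeneous_X K (Sum.inr false : Fin (n + 1) ⊕ Bool)).pow (δ - 1))
    have h2 : 1 + 1 * (δ - 1) = δ := by omega
    rwa [h2] at h1
  · rw [forms_cast, Fin.lastCases_castSucc]
    exact (hG k).rename_isHomogeneous

/-- **The dichotomy** for the complement of `T = 0`. -/
theorem dichotomyT {m : ℕ} (e : Fin m → ℕ) (G : Fin m → MvPolynomial (Fin (n + 1)) K)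
    (hG : ∀ k, (G k).IsHomogeneous (e k)) (T : MvPolynomial (Fin (n + 1)) K) (δ : ℕ)
    (hδ : 1 ≤ δ) (hT : T.IsHomogeneous δ) (S : Finset (FinitePlace K)) (r : ℕ) :
    ∃ C : ℝ, ∀ y : Fin r → Fin (n + 1) → K, (fun a => ∑ j, y j a) ≠ 0 →
      (∀ k, eval (fun a => ∑ j, y j a) (G k) = 0) → eval (fun a => ∑ j, y j a) T ≠ 0 →
      logHeight (fun a => ∑ j, y j a) ≤ C * (1 +
        (outside S fun p : Fin r × Fin (n + 1) => y p.1 p.2) +
        valDist S δ (fun p : Fin r × Fin (n + 1) => y p.1 p.2) (eval (fun a => ∑ j, y j a) T)) ∨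
      ∃ (l : Fin r → Fin (n + 1) → ℕ) (N : ℕ), (∀ k, aeval (curve l y) (G k) = 0) ∧
        aeval (curve l y) T = Polynomial.C (eval (fun a => ∑ j, y j a) T) * Polynomial.X ^ N ∧
        ∃ a b, curve l y a * Polynomial.C (∑ j, y j b) ≠
          curve l y b * Polynomial.C (∑ j, y j a) := by
  classical
  by_contra hcon
  push Not at hcon
  choose y hx h0 hTx hC hD using fun s : ℕ => hcon (s : ℝ)
  set 𝒰 : Ultrafilter ℕ := hyperfilter ℕ with h𝒰
  have hlarge : ∀ N : ℕ, ∀ᶠ s in (𝒰 : Filter ℕ), N ≤ s := fun N =>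
    (Nat.hyperfilter_le_atTop (Filter.eventually_ge_atTop N))
  set x : ℕ → Fin (n + 1) → K := fun s a => ∑ j, y s j a with hxdef
  set Q : ℕ → ℝ := fun s => 1 + (outside S fun p : Fin r × Fin (n + 1) => y s p.1 p.2) +
    valDist S δ (fun p : Fin r × Fin (n + 1) => y s p.1 p.2) (eval (x s) T) with hQ
  set M : ℝ := 1 + δ + ∑ k, coefHeight (forms G T δ k) with hM
  have hch : 0 ≤ ∑ k, coefHeight (forms G T δ k) :=
    Finset.sum_nonneg fun k _ => logHeight_nonneg _
  have hδ0 : (0 : ℝ) ≤ δ := Nat.cast_nonneg δ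
  have hM1 : 1 ≤ M := by linarith
  have ho : ∀ s, 0 ≤ outside S fun p : Fin r × Fin (n + 1) => y s p.1 p.2 :=
    fun s => outside_nonneg S _
  have hv : ∀ s, 0 ≤ valDist S δ (fun p : Fin r × Fin (n + 1) => y s p.1 p.2) (eval (x s) T) :=
    fun s => valDist_nonneg S δ _ _
  have hQ1 : ∀ s, 1 ≤ Q s := fun s => by
    show 1 ≤ 1 + _ + _
    linarith [ho s, hv s]
  set A : ℕ → ℝ := fun s => M * Q s with hAdef
  have hAQ : ∀ s, Q s ≤ A s := fun s => le_mul_of_one_le_left (by linarith [hQ1 s]) hM1
  have hA : ∀ s, 1 ≤ A s := fun s => (hQ1 s).trans (hAQ s)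
  -- the reference term
  have href : ∀ s, ∃ p : Fin r × Fin (n + 1), y s p.1 p.2 ≠ 0 := by
    intro s
    by_contra h
    push Not at h
    apply hx s
    funext a
    exact Finset.sum_eq_zero fun j _ => h (j, a)
  choose p₀ hp₀ using href
  set w : ℕ → K := fun s => y s (p₀ s).1 (p₀ s).2 with hw
  set Y : Ix n r → ℕ → K := fun i s => Sum.elim (fun p => y s p.1 p.2)
    (fun b => if b then eval (x s) T / w s ^ (δ - 1) else w s) i with hY
  have hYl : ∀ p s, Y (Sum.inl p) s = y s p.1 p.2 := fun p s => rfl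
  have hYt : ∀ s, Y (Sum.inr true) s = eval (x s) T / w s ^ (δ - 1) := fun s => rfl
  have hYf : ∀ s, Y (Sum.inr false) s = w s := fun s => rfl
  have hsx : ∀ s a, ∑ i ∈ univ.filter (fun i => pr n r i = Sum.inl a), Y i s = x s a := by
    intro s a
    exact sum_inl (fun i => Y i s) a
  obtain ⟨I, l, hI, hl1, hl2⟩ := key 𝒰 (plS S) (plS_inf S)
    (fun k => Fin.lastCases (motive := fun _ => ℕ) δ e k) (fun _ => forms G T δ)
    (fun _ k => forms_homog e G hG T δ hδ hT k) (pr n r) Y A hA
    (Eventually.of_forall fun s k => by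
      have h2 := Finset.single_le_sum (f := fun k => coefHeight (forms G T δ k))
        (fun k _ => logHeight_nonneg _) (Finset.mem_univ k)
      have h3 : M ≤ A s := le_mul_of_one_le_right (by linarith) (hQ1 s)
      linarith)
    (Eventually.of_forall fun s i j hi hj => by
      have hyy : ∀ p p' : Fin r × Fin (n + 1), y s p.1 p.2 ≠ 0 → y s p'.1 p'.2 ≠ 0 →
          tau (plS S) (y s p.1 p.2 / y s p'.1 p'.2) ≤
            outside S fun p : Fin r × Fin (n + 1) => y s p.1 p.2 := fun p p' hp hp' =>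
        tau_le_outside S (fun p : Fin r × Fin (n + 1) => y s p.1 p.2) p p' hp hp'
      have hoQ : (outside S fun p : Fin r × Fin (n + 1) => y s p.1 p.2) ≤ A s := by
        refine le_trans ?_ (hAQ s)
        show _ ≤ 1 + _ + _
        linarith [hv s]
      have hzy : ∀ p : Fin r × Fin (n + 1), y s p.1 p.2 ≠ 0 →
          tau (plS S) (Y (Sum.inr true) s / y s p.1 p.2) ≤ A s := by
        intro p hp
        have h1 : Y (Sum.inr true) s / y s p.1 p.2 =
            (eval (x s) T / w s ^ δ) * (w s / y s p.1 p.2) := by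
          rw [hYt]
          have h2 : w s ^ δ = w s ^ (δ - 1) * w s := by
            rw [← pow_succ]
            congr 1
            omega
          rw [h2]
          have := hp₀ s
          have h3 : w s ≠ 0 := hp₀ s
          field_simp
        have h2 := tau_le_valDist S δ (fun p : Fin r × Fin (n + 1) => y s p.1 p.2) (eval (x s) T)
          (hTx s) (p₀ s) (hp₀ s)
        have h3 := hyy (p₀ s) p (hp₀ s) hp
        rw [h1]
        refine (tau_mul_le (plS S) (plS_inf S) (div_ne_zero (hTx s) (pow_ne_zero _ (hp₀ s)))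
          (div_ne_zero (hp₀ s) hp)).trans ?_
        have h4 : (1 + δ) * Q s ≤ A s := mul_le_mul_of_nonneg_right (by linarith)
          (by linarith [hQ1 s])
        have h5 : Q s = 1 + (outside S fun p : Fin r × Fin (n + 1) => y s p.1 p.2) +
          valDist S δ (fun p : Fin r × Fin (n + 1) => y s p.1 p.2) (eval (x s) T) := rfl
        have h6 := ho s
        have h7 := hv s
        have h8 : (1 + δ : ℝ) * Q s = Q s + δ * Q s := by ring
        have h9 : (δ : ℝ) * (outside S fun p : Fin r × Fin (n + 1) => y s p.1 p.2) ≤ δ * Q s :=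
          mul_le_mul_of_nonneg_left (by linarith) hδ0
        have h10 : tau (plS S) (eval (x s) T / w s ^ δ) ≤ _ := h2
        have h11 : tau (plS S) (w s / y s p.1 p.2) ≤ _ := h3
        linarith
      have hform : ∀ i : Ix n r, i ≠ Sum.inr true → Y i s ≠ 0 →
          ∃ p : Fin r × Fin (n + 1), Y i s = y s p.1 p.2 := by
        rintro (p | b) h1 _
        · exact ⟨p, rfl⟩
        · cases b with
          | true => exact absurd rfl h1
          | false => exact ⟨p₀ s, rfl⟩
      by_cases hit : i = Sum.inr true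
      · by_cases hjt : j = Sum.inr true
        · rw [hit, hjt, div_self (by rw [hit] at hi; exact hi), tau_one]
          linarith [hA s]
        · obtain ⟨p, hp⟩ := hform j hjt hj
          rw [hit, hp]
          exact hzy p (by rw [← hp]; exact hj)
      · obtain ⟨p, hp⟩ := hform i hit hi
        by_cases hjt : j = Sum.inr true
        · rw [hjt, hp, ← tau_inv, inv_div]
          exact hzy p (by rw [← hp]; exact hi)
        · obtain ⟨p', hp'⟩ := hform j hjt hj
          rw [hp, hp']
          exact (hyy p p' (by rw [← hp]; exact hi) (by rw [← hp']; exact hj)).trans hoQ)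
    (Eventually.of_forall fun s k => by
      refine Fin.lastCases ?_ (fun k => ?_) k
      · rw [forms_last]
        simp only [map_sub, map_mul, map_pow, eval_X, eval_rename]
        have h1 : ((fun a => ∑ i ∈ univ.filter (fun i => pr n r i = a), Y i s) ∘ Sum.inl) = x s :=
          funext fun a => hsx s a
        rw [h1, sum_inr (fun i => Y i s), sum_inr (fun i => Y i s), hYt, hYf,
          div_mul_cancel₀ _ (pow_ne_zero _ (hp₀ s)), sub_self]
      · rw [forms_cast, eval_rename]
        have h1 : ((fun a => ∑ i ∈ univ.filter (fun i => pr n r i = a), Y i s) ∘ Sum.inl) = x s :=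
          funext fun a => hsx s a
        rw [h1]
        exact h0 s k)
  -- the constants of the relations
  have hrel : ∀ p : (Fin r × Fin (n + 1)) × (Fin r × Fin (n + 1)), ∃ C : ℝ,
      Sum.inl p.1 ∈ I → Sum.inl p.2 ∈ I → l (Sum.inl p.1) = l (Sum.inl p.2) →
      ∀ᶠ s in (𝒰 : Filter ℕ), logHeight₁ (y s p.1.1 p.1.2 / y s p.2.1 p.2.2) ≤ C * A s := by
    intro p
    by_cases h : Sum.inl p.1 ∈ I ∧ Sum.inl p.2 ∈ I ∧ l (Sum.inl p.1) = l (Sum.inl p.2)
    · obtain ⟨C, hC⟩ := hl2 (Sum.inl p.1) h.1 (Sum.inl p.2) h.2.1 h.2.2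
      exact ⟨C, fun _ _ _ => hC⟩
    · exact ⟨0, fun h1 h2 h3 => absurd ⟨h1, h2, h3⟩ h⟩
  choose Cp hCp using hrel
  have hall : ∀ᶠ s in (𝒰 : Filter ℕ), ∀ p : (Fin r × Fin (n + 1)) × (Fin r × Fin (n + 1)),
      Sum.inl p.1 ∈ I → Sum.inl p.2 ∈ I → l (Sum.inl p.1) = l (Sum.inl p.2) →
        logHeight₁ (y s p.1.1 p.1.2 / y s p.2.1 p.2.2) ≤ Cp p * A s := by
    rw [Filter.eventually_all]
    intro p
    by_cases h : Sum.inl p.1 ∈ I ∧ Sum.inl p.2 ∈ I ∧ l (Sum.inl p.1) = l (Sum.inl p.2)
    · filter_upwards [hCp p h.1 h.2.1 h.2.2] with s hs _ _ _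
      exact hs
    · exact Eventually.of_forall fun s h1 h2 h3 => absurd ⟨h1, h2, h3⟩ h
  set B : ℝ := ∑ p, |Cp p| with hB
  have hB0 : 0 ≤ B := Finset.sum_nonneg fun p _ => abs_nonneg _
  have hBp : ∀ p, Cp p ≤ B := fun p => (le_abs_self _).trans
    (Finset.single_le_sum (f := fun p => |Cp p|) (fun _ _ => abs_nonneg _) (Finset.mem_univ p))
  set W : ℝ := totalWeight K * Real.log r with hW
  have hW0 : 0 ≤ W := mul_nonneg (Nat.cast_nonneg _) (Real.log_natCast_nonneg r)
  set C1 : ℝ := (n + 1) * (W + r * B) with hC1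
  obtain ⟨N, hN⟩ := exists_nat_gt (C1 * M)
  obtain ⟨s, h1, h2, h3, h4⟩ := ((hlarge N).and (hI.and (hl1.and hall))).exists
  have hcs : ∀ t : K, (fun a => ∑ i ∈ univ.filter (fun i => pr n r i = a), t ^ (l i) * Y i s) ∘
      Sum.inl = fun a => ∑ j, t ^ (l (Sum.inl (j, a))) * y s j a := by
    intro t
    funext a
    exact sum_inl (fun i => t ^ (l i) * Y i s) a
  -- the curve is constant
  have hbound := hD s (fun j a => l (Sum.inl (j, a)))
    (l (Sum.inr true) + l (Sum.inr false) * (δ - 1)) (fun k => by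
      refine aeval_curve _ _ _ fun t => ?_
      have h5 := h3 t k.castSucc
      rw [forms_cast, eval_rename, hcs t] at h5
      exact h5) (by
      apply Polynomial.funext
      intro t
      have h5 := h3 t (Fin.last m)
      rw [forms_last] at h5
      simp only [map_sub, map_mul, map_pow, eval_X, eval_rename] at h5
      rw [hcs t, sum_inr (fun i => t ^ (l i) * Y i s), sum_inr (fun i => t ^ (l i) * Y i s),
        sub_eq_zero] at h5
      have h6 := MvPolynomial.comp_aeval_apply (R := K)
        (curve (fun j a => l (Sum.inl (j, a))) (y s))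
        (Polynomial.aeval t : Polynomial K →ₐ[K] K) T
      rw [Polynomial.coe_aeval_eq_eval] at h6
      rw [h6, Polynomial.eval_mul, Polynomial.eval_C, Polynomial.eval_pow, Polynomial.eval_X,
        MvPolynomial.aeval_def]
      have h7 : (fun i => (curve (fun j a => l (Sum.inl (j, a))) (y s) i).eval t) =
          fun a => ∑ j, t ^ (l (Sum.inl (j, a))) * y s j a := by
        funext a
        exact curve_eval _ _ a t
      have h8 : eval₂ (algebraMap K K) (fun i => (curve (fun j a => l (Sum.inl (j, a))) (y s) i).eval t)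
          T = eval (fun a => ∑ j, t ^ (l (Sum.inl (j, a))) * y s j a) T := by
        rw [h7, MvPolynomial.eval, MvPolynomial.coe_eval₂Hom]
        rfl
      rw [h8, ← h5]
      rw [hYt, hYf, pow_add, pow_mul, mul_pow]
      have h9 : w s ^ (δ - 1) ≠ 0 := pow_ne_zero _ (hp₀ s)
      have h10 : eval (fun a => ∑ j, y s j a) T = eval (x s) T := rfl
      rw [h10]
      field_simp)
  have h5 := height_of_const (fun j a => l (Sum.inl (j, a))) (y s) (hx s) hbound (B * A s) (by
    intro i i' hi hi' hii
    have h6 := h4 (i, i') ((h2 (Sum.inl i)).1 hi) ((h2 (Sum.inl i')).1 hi') hii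
    have h7 := hA s
    refine h6.trans (mul_le_mul_of_nonneg_right (hBp _) (by linarith)))
  have hA1 := hA s
  rw [max_eq_left (mul_nonneg hB0 (by linarith)), ← hW] at h5
  have h6 : logHeight (fun a => ∑ j, y s j a) ≤ C1 * A s := by
    refine h5.trans ?_
    rw [hC1]
    have hn : (0 : ℝ) ≤ n := Nat.cast_nonneg n
    have h7 : W + r * (B * A s) ≤ (W + r * B) * A s := by
      have h8 : W ≤ W * A s := le_mul_of_one_le_right hW0 hA1
      linarith
    calc (n + 1 : ℝ) * (W + r * (B * A s)) ≤ (n + 1) * ((W + r * B) * A s) :=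
          mul_le_mul_of_nonneg_left h7 (by linarith)
      _ = (n + 1) * (W + r * B) * A s := by ring
  have h7 := hC s
  have h8 : (N : ℝ) ≤ s := by exact_mod_cast h1
  have h9 : C1 * A s < s * Q s := by
    have h10 : C1 * A s = C1 * M * Q s := by
      show C1 * (M * Q s) = _
      ring
    rw [h10]
    exact mul_lt_mul_of_pos_right (by linarith) (by linarith [hQ1 s])
  have h10 : (s : ℝ) * Q s < logHeight (fun a => ∑ j, y s j a) := h7
  linarith

end Run7.h128.BL
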