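import Pool.Agent.Run7.h128.BL.Spec
import Pool.Agent.H159R3.Exp.BLV

/-!
Entire curves of exponential type and morphisms from the multiplicative group.
-/

set_option autoImplicit false
set_option linter.unusedSectionVars false

namespace Run7.h128.BL

open Filter Topology MvPolynomial
open Pool.Agent.H159R3.NV Pool.Agent.H159R3.Exp

/-- An entire function without zeros is the exponential of an entire function. -/
theorem exists_log {f : ℂ → ℂ} (hf : Differentiable ℂ f) (h0 : ∀ z, f z ≠ 0) :
    ∃ g : ℂ → ℂ, Differentiable ℂ g ∧ ∀ z, f z = Complex.exp (g z) := by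
  have hd : Differentiable ℂ (fun z => deriv f z / f z) := by
    intro z
    have h1 : DifferentiableAt ℂ (deriv f) z :=
      (hf.analyticAt z).deriv.differentiableAt
    exact h1.div (hf z) (h0 z)
  obtain ⟨g0, hg0⟩ := hd.isExactOn_univ
  have hg : ∀ z, HasDerivAt g0 (deriv f z / f z) z := fun z => hg0 z (Set.mem_univ z)
  have hconst : ∀ z w, f z * Complex.exp (- g0 z) = f w * Complex.exp (- g0 w) := by
    apply is_const_of_deriv_eq_zero (f := fun z => f z * Complex.exp (- g0 z)) (𝕜 := ℂ)
    · intro z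
      exact (hf z).mul ((hg z).neg.cexp.differentiableAt)
    · intro z
      have h1 : HasDerivAt (fun z => f z * Complex.exp (- g0 z))
          (deriv f z * Complex.exp (- g0 z) +
            f z * (Complex.exp (- g0 z) * -(deriv f z / f z))) z :=
        ((hf z).hasDerivAt).mul (hg z).neg.cexp
      rw [h1.deriv]
      have := h0 z
      field_simp
      ring
  have hc : f 0 * Complex.exp (- g0 0) ≠ 0 := mul_ne_zero (h0 0) (Complex.exp_ne_zero _)
  refine ⟨fun z => Complex.log (f 0 * Complex.exp (- g0 0)) + g0 z, ?_, ?_⟩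
  · intro z
    exact (differentiableAt_const _).add (hg z).differentiableAt
  · intro z
    rw [Complex.exp_add, Complex.exp_log hc, ← hconst z 0, mul_assoc, ← Complex.exp_add]
    simp

/-- forms at multiples of a point -/
theorem eval₂_smul_form {R S : Type} [CommRing R] [CommRing S] {n : ℕ} (φ : R →+* S)
    {Q : MvPolynomial (Fin n) R} {e : ℕ} (hQ : Q.IsHomogeneous e) (a : S) (x : Fin n → S) :
    eval₂ φ (fun j => a * x j) Q = a ^ e * eval₂ φ x Q := by
  rw [eval₂_eq', eval₂_eq', Finset.mul_sum]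
  refine Finset.sum_congr rfl fun α hα => ?_
  have h1 : ∑ i, α i = e := by
    rw [hQ.degree_eq_sum_deg_support hα]
    refine (Finset.sum_subset (Finset.subset_univ _) fun i _ hi => ?_).symm
    simpa using hi
  simp only [mul_pow]
  rw [Finset.prod_mul_distrib, Finset.prod_pow_eq_pow_sum, h1]
  ring

/-- the Wronskian of two functions which are not proportional -/
theorem exists_wron {f g : ℂ → ℂ} (hf : Differentiable ℂ f) (hg : Differentiable ℂ g)
    (h : ∃ z w, f z * g w ≠ g z * f w) : ∃ z, f z * deriv g z - g z * deriv f z ≠ 0 := by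
  obtain ⟨z₂, w₂, hw₂⟩ := h
  by_contra hcon
  push Not at hcon
  have key : ∀ f g : ℂ → ℂ, Differentiable ℂ f → Differentiable ℂ g →
      (∀ z, f z * deriv g z - g z * deriv f z = 0) →
      (∃ z, f z ≠ 0) → ∃ lam : ℂ, ∀ z, g z = lam * f z := by
    intro f g hf hg hW hne
    obtain ⟨y, hy⟩ := hne
    refine ⟨g y / f y, ?_⟩
    have hU : ∀ᶠ z in 𝓝 y, f z ≠ 0 := hf.continuous.continuousAt.eventually_ne hy
    obtain ⟨ε, hε, hball⟩ := Metric.eventually_nhds_iff_ball.mp hU
    have hq : ∀ z ∈ Metric.ball y ε, HasDerivAt (fun z => g z / f z) 0 z := by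
      intro z hz
      have h1 := (hg z).hasDerivAt.div (hf z).hasDerivAt (hball z hz)
      have h2 : (deriv g z * f z - g z * deriv f z) / f z ^ 2 = 0 := by
        rw [div_eq_zero_iff]
        left
        have := hW z
        linear_combination this
      rw [h2] at h1
      exact h1
    have hconst : ∀ z ∈ Metric.ball y ε, g z / f z = g y / f y := by
      intro z hz
      have h1 := (convex_ball y ε).is_const_of_fderivWithin_eq_zero (𝕜 := ℂ)
        (f := fun z => g z / f z) (fun z hz => (hq z hz).differentiableAt.differentiableWithinAt)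
        (fun z hz => by
          rw [fderivWithin_of_isOpen Metric.isOpen_ball hz]
          have h3 := (hq z hz).hasFDerivAt.fderiv
          rw [h3]
          ext
          simp) hz (Metric.mem_ball_self hε)
      exact h1
    have h3 : ∀ᶠ z in 𝓝 y, g z - g y / f y * f z = 0 := by
      filter_upwards [Metric.ball_mem_nhds y hε] with z hz
      have h4 := hconst z hz
      rw [div_eq_iff (hball z hz)] at h4
      rw [h4, sub_self]
    have h5 : Differentiable ℂ fun z => g z - g y / f y * f z := hg.sub (hf.const_mul _)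
    intro z
    by_contra hcon
    have h6 := ev_ne h5 (sub_ne_zero.mpr hcon) y
    exact (h6.and (h3.filter_mono nhdsWithin_le_nhds)).exists.elim fun u hu => hu.1 hu.2
  have hc2 : ∃ z, f z ≠ 0 ∨ g z ≠ 0 := by
    by_contra hno
    push Not at hno
    apply hw₂
    rw [(hno z₂).1, (hno z₂).2]
    ring
  obtain ⟨y, hy | hy⟩ := hc2
  · obtain ⟨lam, hlam⟩ := key f g hf hg hcon ⟨y, hy⟩
    apply hw₂
    rw [hlam, hlam]
    ring
  · obtain ⟨lam, hlam⟩ := key g f hg hf (fun z => by
      have := hcon z
      linear_combination -this) ⟨y, hy⟩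
    apply hw₂
    rw [hlam z₂, hlam w₂]
    ring

variable {k : Type} [Field k] {n m : ℕ} {κ : Type}

/-- Every nonconstant entire curve of exponential type in `V = {G = 0} ∖ {T = 0}` lies in `V'`: the
entire functions `f_0, …, f_n` are polynomials in the variable and in exponentials of entire
functions, after composition with a nonconstant entire function. -/
def ExpIn (σ : k →+* ℂ) (G : Fin m → MvPolynomial (Fin (n + 1)) k)
    (T : MvPolynomial (Fin (n + 1)) k) (G' : κ → MvPolynomial (Fin (n + 1)) k) : Prop :=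
  ∀ f : ℂ → Fin (n + 1) → ℂ, ExpType f →
    (∀ z i, eval₂ σ (f z) (G i) = 0) → (∀ z, eval₂ σ (f z) T ≠ 0) →
    (∃ a b z w, f z a * f w b ≠ f z b * f w a) → ∀ z l, eval₂ σ (f z) (G' l) = 0

theorem diff_eval₂ (σ : k →+* ℂ) {f : ℂ → Fin (n + 1) → ℂ} (hf : Differentiable ℂ f)
    (F : MvPolynomial (Fin (n + 1)) k) : Differentiable ℂ fun z => eval₂ σ (f z) F := by
  have h1 : (fun z => eval₂ σ (f z) F) = fun z => eval (f z) (map σ F) :=
    funext fun z => eval₂_eq_eval_map _ _ _
  rw [h1]
  exact differentiable_eval hf _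

/-- adding a coordinate without zeros -/
theorem expPoly_cons {f : ℂ → Fin (n + 1) → ℂ} (hf : ExpPoly f) {H : ℂ → ℂ}
    (hH : Differentiable ℂ H) :
    ExpPoly (fun z => (Fin.cons (Complex.exp (H z)) (f z) : Fin (n + 2) → ℂ)) := by
  obtain ⟨m, g, P, hg, hP⟩ := hf
  let ρ : Fin (m + 1) → Fin (m + 2) := Fin.cons 0 fun i => i.succ.succ
  refine ⟨m + 1, Fin.cons H g, Fin.cons (X 1) fun a => rename ρ (P a), ?_, ?_⟩
  · intro i
    refine Fin.cases ?_ (fun i => ?_) i
    · exact hH
    · exact hg i
  · intro z j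
    refine Fin.cases ?_ (fun j => ?_) j
    · show Complex.exp (H z) = eval _ (X 1)
      rw [eval_X]
      rfl
    · show f z j = eval _ (rename ρ (P j))
      rw [eval_rename, hP z j]
      congr 2
      funext i
      refine Fin.cases ?_ (fun i => ?_) i
      · rfl
      · rfl

/-- **(i) for the multiplicative group implies (i) for entire curves of exponential type.** -/
theorem exp_of_gm (σ : k →+* ℂ) (e : Fin m → ℕ) (G : Fin m → MvPolynomial (Fin (n + 1)) k)
    (hG : ∀ i, (G i).IsHomogeneous (e i)) (T : MvPolynomial (Fin (n + 1)) k) (δ : ℕ)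
    (hT : T.IsHomogeneous δ) (G' : κ → MvPolynomial (Fin (n + 1)) k)
    (hgm : GmIn σ G T G') : ExpIn σ G T G' := by
  classical
  rintro f0 ⟨hf0d, h, hh, hhc, hf⟩ hfG0 hfT0 ⟨a, c, z₁, w₁, hnc0⟩ zG l
  by_contra hl
  set f : ℂ → Fin (n + 1) → ℂ := fun z => f0 (h z) with hfdef
  have hfd : Differentiable ℂ f := hf0d.comp hh
  have hf0j : ∀ j, Differentiable ℂ (fun z => f0 z j) := fun j => by
    rw [differentiable_pi] at hf0d
    exact hf0d j
  have hfj : ∀ j, Differentiable ℂ (fun z => f z j) := fun j => by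
    rw [differentiable_pi] at hfd
    exact hfd j
  have hdj : ∀ j, Differentiable ℂ (deriv (fun z => f z j)) := fun j =>
    ((hfj j).contDiff (n := 2)).differentiable_deriv_two
  obtain ⟨z2, hz2⟩ : ∃ z, eval₂ σ (f z) (G' l) ≠ 0 :=
    comp_ne (F := fun z => eval₂ σ (f0 z) (G' l)) (diff_eval₂ σ hf0d _) ⟨zG, hl⟩ hh hhc
  obtain ⟨zd, hzd⟩ : ∃ z, f z a * deriv (fun z => f z c) z - f z c * deriv (fun z => f z a) z
      ≠ 0 := by
    obtain ⟨z₂, hz₂⟩ : ∃ z, f z a * f0 w₁ c - f z c * f0 w₁ a ≠ 0 :=
      comp_ne (F := fun y => f0 y a * f0 w₁ c - f0 y c * f0 w₁ a)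
        (((hf0j a).mul_const _).sub ((hf0j c).mul_const _))
        ⟨z₁, sub_ne_zero.mpr hnc0⟩ hh hhc
    obtain ⟨w₂, hw₂⟩ : ∃ w, f z₂ a * f w c - f z₂ c * f w a ≠ 0 :=
      comp_ne (F := fun y => f z₂ a * f0 y c - f z₂ c * f0 y a)
        (((hf0j c).const_mul _).sub ((hf0j a).const_mul _))
        ⟨w₁, hz₂⟩ hh hhc
    exact exists_wron (hfj a) (hfj c) ⟨z₂, w₂, sub_ne_zero.1 hw₂⟩
  have hWd : Differentiable ℂ fun z => f z a * deriv (fun z => f z c) z -
      f z c * deriv (fun z => f z a) z :=
    ((hfj a).mul (hdj c)).sub ((hfj c).mul (hdj a))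
  obtain ⟨z0, hz0, hz0G⟩ := ((ev_ne hWd hzd 0).and (ev_ne (diff_eval₂ σ hfd (G' l)) hz2 0)).exists
  -- the inverse of the value of `T`
  obtain ⟨H, hH, hHe⟩ := exists_log (diff_eval₂ σ hfd T) (fun z => hfT0 (h z))
  set f' : ℂ → Fin (n + 2) → ℂ := fun z => Fin.cons (Complex.exp (-H z)) (f z) with hf'def
  have hf' : ExpPoly f' := expPoly_cons hf hH.neg
  set lamv : Fin (n + 1) → ℂ := fun j => f z0 a * (if j = c then 1 else 0) -
    f z0 c * (if j = a then 1 else 0) with hlamv
  have hsum : ∀ y : Fin (n + 1) → ℂ, ∑ j, lamv j * y j = f z0 a * y c - f z0 c * y a := by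
    intro y
    simp only [hlamv, sub_mul, Finset.sum_sub_distrib, mul_assoc]
    rw [← Finset.mul_sum, ← Finset.mul_sum]
    simp
  have hsum' : ∀ y : Fin (n + 2) → ℂ, ∑ j, (Fin.cons 0 lamv : Fin (n + 2) → ℂ) j * y j =
      f z0 a * y c.succ - f z0 c * y a.succ := by
    intro y
    rw [Fin.sum_univ_succ, Fin.cons_zero, zero_mul, zero_add]
    simp only [Fin.cons_succ]
    exact hsum fun j => y j.succ
  obtain ⟨v, hv, hv1, ⟨k1, hk1⟩, hvF⟩ := rational_curve f' hf' (Fin.cons 0 lamv) z0 (by
    have h1 : (fun z => ∑ j, (Fin.cons 0 lamv : Fin (n + 2) → ℂ) j * f' z j) =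
        fun z => f z0 a * f z c - f z0 c * f z a := by
      funext z
      rw [hsum']
      simp only [hf'def, Fin.cons_succ]
    rw [h1]
    have h2 := (((hfj c) z0).hasDerivAt.const_mul (f z0 a)).sub
      (((hfj a) z0).hasDerivAt.const_mul (f z0 c))
    have h3 : deriv (fun z => f z0 a * f z c - f z0 c * f z a) z0 =
        f z0 a * deriv (fun z => f z c) z0 - f z0 c * deriv (fun z => f z a) z0 := h2.deriv
    rw [h3]
    exact hz0)
  have hv1' : ∀ j : Fin (n + 1), v 1 j.succ = f z0 j := by
    intro j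
    rw [hv1]
    simp only [hf'def, Fin.cons_succ]
  rw [hsum', hsum', hv1', hv1', mul_comm (f z0 c) (f z0 a), sub_self] at hk1
  obtain ⟨M, Q, hQ⟩ := Laur.common v hv
  set p : Fin (n + 1) → Polynomial ℂ := fun j => Q j.succ with hp
  have hpe : ∀ t, t ≠ 0 → (fun j => (p j).eval t) = fun j => t ^ M * v t j.succ := by
    intro t ht
    funext j
    rw [hQ t ht, mul_div_cancel₀ _ (pow_ne_zero _ ht)]
  have hform : ∀ (F : MvPolynomial (Fin (n + 1)) k) (d : ℕ), F.IsHomogeneous d → ∀ t, t ≠ 0 →
      (eval₂ (Polynomial.C.comp σ) p F).eval t =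
        (t ^ M) ^ d * eval₂ σ (fun j => v t j.succ) F := by
    intro F d hF t ht
    rw [← eval₂_smul_form σ hF, ← hpe t ht]
    have h1 := MvPolynomial.hom_eval₂ F (Polynomial.C.comp σ) (Polynomial.evalRingHom t) p
    refine Eq.trans h1 ?_
    congr 1
    ext b
    simp
  have hinf : ∀ P : Polynomial ℂ, (∀ t : ℂ, t ≠ 0 → P.eval t = 0) → P = 0 := by
    intro P hP
    refine Polynomial.eq_zero_of_infinite_isRoot P ?_
    refine Set.Infinite.mono (s := {0}ᶜ) (fun t ht => hP t ht) ?_
    exact (Set.finite_singleton (0 : ℂ)).infinite_compl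
  have hren : ∀ (F : MvPolynomial (Fin (n + 1)) k) (x : Fin (n + 2) → ℂ),
      eval x (rename Fin.succ (map σ F)) = eval₂ σ (fun j => x j.succ) F := by
    intro F x
    rw [eval_rename, eval_map]
    rfl
  have hp1 : (fun j => (p j).eval 1) = f z0 := by
    rw [hpe 1 one_ne_zero]
    funext j
    rw [one_pow, one_mul, hv1']
  have hfin := hgm p (fun i => ?_) ?_ ?_ l
  · have h1 := congrArg (Polynomial.eval 1) hfin
    have h2 := MvPolynomial.hom_eval₂ (G' l) (Polynomial.C.comp σ) (Polynomial.evalRingHom 1) p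
    have h3 : (Polynomial.evalRingHom (1 : ℂ)).comp (Polynomial.C.comp σ) = σ := by
      ext b
      simp
    rw [h3] at h2
    apply hz0G
    rw [← hp1]
    refine Eq.trans h2.symm ?_
    rw [hfin]
    exact map_zero _
  · refine hinf _ fun t ht => ?_
    rw [hform (G i) (e i) (hG i) t ht, ← hren, hvF (rename Fin.succ (map σ (G i))) (fun z => by
      rw [hren]
      simp only [hf'def, Fin.cons_succ]
      exact hfG0 (h z) i) t ht, mul_zero]
  · have h1 : ∀ t, t ≠ 0 → eval₂ σ (fun j => v t j.succ) T * v t 0 = 1 := by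
      intro t ht
      have h2 := hvF (rename Fin.succ (map σ T) * X 0 - 1) (fun z => by
        rw [map_sub, map_mul, hren, eval_X, map_one]
        simp only [hf'def, Fin.cons_succ, Fin.cons_zero]
        rw [hHe z, ← Complex.exp_add]
        simp) t ht
      rw [map_sub, map_mul, hren, eval_X, map_one, sub_eq_zero] at h2
      exact h2
    have h2 : eval₂ (Polynomial.C.comp σ) p T * Q 0 = Polynomial.X ^ (M * δ + M) := by
      rw [← sub_eq_zero]
      refine hinf _ fun t ht => ?_
      rw [Polynomial.eval_sub, Polynomial.eval_mul, hform T δ hT t ht, Polynomial.eval_pow,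
        Polynomial.eval_X, sub_eq_zero]
      have h3 : (Q 0).eval t = t ^ M * v t 0 := by
        rw [hQ t ht, mul_div_cancel₀ _ (pow_ne_zero _ ht)]
      rw [h3, pow_add, pow_mul]
      linear_combination (t ^ M) ^ δ * t ^ M * h1 t ht
    obtain ⟨N, _, hN⟩ := (dvd_prime_pow Polynomial.prime_X _).1 ⟨Q 0, h2.symm⟩
    obtain ⟨u, hu⟩ := hN.symm
    obtain ⟨c₀, hc₀, hc₀u⟩ := Polynomial.isUnit_iff.1 u.isUnit
    refine ⟨c₀, N, hc₀.ne_zero, ?_⟩
    rw [← hu, ← hc₀u, mul_comm]
  · by_contra hcon
    push Not at hcon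
    apply hk1
    have h1 := hcon c a (2 ^ k1) 1
    have h2 : ∀ j, (p j).eval 1 = f z0 j := fun j => congrFun hp1 j
    have h3 : ∀ j, (p j).eval (2 ^ k1) = (2 ^ k1 : ℂ) ^ M * v (2 ^ k1) j.succ := fun j =>
      congrFun (hpe (2 ^ k1) (pow_ne_zero _ two_ne_zero)) j
    rw [h2, h2, h3, h3] at h1
    have h4 : (2 ^ k1 : ℂ) ^ M ≠ 0 := pow_ne_zero _ (pow_ne_zero _ two_ne_zero)
    have h5 : (2 ^ k1 : ℂ) ^ M * (f z0 a * v (2 ^ k1) c.succ - f z0 c * v (2 ^ k1) a.succ) = 0 := by
      linear_combination h1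
    exact (mul_eq_zero.1 h5).resolve_left h4

/-- **(i) for entire curves of exponential type implies (i) for the multiplicative group.** -/
theorem gm_of_exp (σ : k →+* ℂ) (G : Fin m → MvPolynomial (Fin (n + 1)) k)
    (T : MvPolynomial (Fin (n + 1)) k) (G' : κ → MvPolynomial (Fin (n + 1)) k)
    (h : ExpIn σ G T G') : GmIn σ G T G' := by
  intro p hG ⟨c, N, hc, hT⟩ ⟨a, b, z, w, hab⟩ l
  have hev : ∀ (F : MvPolynomial (Fin (n + 1)) k) (t : ℂ),
      eval₂ σ (fun a => (p a).eval t) F = (eval₂ (Polynomial.C.comp σ) p F).eval t := by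
    intro F t
    have h1 := MvPolynomial.hom_eval₂ F (Polynomial.C.comp σ) (Polynomial.evalRingHom t) p
    refine Eq.symm (Eq.trans h1 ?_)
    congr 1
    ext a
    simp
  have hd : Differentiable ℂ fun z => fun a => (p a).eval (Complex.exp z) := by
    rw [differentiable_pi]
    exact fun a => (p a).differentiable.comp Complex.differentiable_exp
  have h1 := h (fun z a => (p a).eval (Complex.exp z)) ⟨hd, fun z => z, differentiable_id,
      ⟨0, 1, zero_ne_one⟩, 1, fun _ z => z, fun a => (p a).eval₂ C (X 1),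
      fun _ => differentiable_id, fun z a => by
        have h2 : (eval (Fin.cons z fun _ => Complex.exp z : Fin 2 → ℂ)).comp C = RingHom.id ℂ := by
          ext
          simp
        rw [Polynomial.hom_eval₂, h2, eval_X]
        rfl⟩ (fun z i => by
      rw [hev, hG i, Polynomial.eval_zero]) (fun z => by
      rw [hev, hT, Polynomial.eval_mul, Polynomial.eval_C, Polynomial.eval_pow,
        Polynomial.eval_X]
      exact mul_ne_zero hc (pow_ne_zero _ (Complex.exp_ne_zero z))) (by
      by_contra hcon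
      push Not at hcon
      apply hab
      have hs : ∀ t s : ℂ, t ≠ 0 → s ≠ 0 →
          (p a).eval t * (p b).eval s = (p b).eval t * (p a).eval s := by
        intro t s ht hs
        have := hcon a b (Complex.log t) (Complex.log s)
        rwa [Complex.exp_log ht, Complex.exp_log hs] at this
      have hinf : ∀ P : Polynomial ℂ, (∀ t : ℂ, t ≠ 0 → P.eval t = 0) → P = 0 := by
        intro P hP
        refine Polynomial.eq_zero_of_infinite_isRoot P ?_
        refine Set.Infinite.mono (s := {0}ᶜ) (fun t ht => hP t ht) ?_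
        exact (Set.finite_singleton (0 : ℂ)).infinite_compl
      have h2 : ∀ s : ℂ, s ≠ 0 → ∀ t, (p a).eval t * (p b).eval s = (p b).eval t * (p a).eval s := by
        intro s hs0 t
        have h3 := hinf (p a * Polynomial.C ((p b).eval s) - p b * Polynomial.C ((p a).eval s))
          (fun t ht => by
            rw [Polynomial.eval_sub, Polynomial.eval_mul, Polynomial.eval_mul, Polynomial.eval_C,
              Polynomial.eval_C, hs t s ht hs0, sub_self])
        have h4 := congrArg (Polynomial.eval t) h3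
        rw [Polynomial.eval_sub, Polynomial.eval_mul, Polynomial.eval_mul, Polynomial.eval_C,
          Polynomial.eval_C, Polynomial.eval_zero, sub_eq_zero] at h4
        exact h4
      have h3 := hinf (Polynomial.C ((p a).eval z) * p b - Polynomial.C ((p b).eval z) * p a)
        (fun s hs0 => by
          rw [Polynomial.eval_sub, Polynomial.eval_mul, Polynomial.eval_mul, Polynomial.eval_C,
            Polynomial.eval_C, h2 s hs0 z, sub_self])
      have h4 := congrArg (Polynomial.eval w) h3
      rw [Polynomial.eval_sub, Polynomial.eval_mul, Polynomial.eval_mul, Polynomial.eval_C,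
        Polynomial.eval_C, Polynomial.eval_zero, sub_eq_zero] at h4
      exact h4)
  refine Polynomial.eq_zero_of_infinite_isRoot _ ?_
  refine Set.Infinite.mono (s := {0}ᶜ) (fun t ht => ?_)
    (Set.finite_singleton (0 : ℂ)).infinite_compl
  have h2 := h1 (Complex.log t) l
  rw [hev, Complex.exp_log ht] at h2
  exact h2

end Run7.h128.BL
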