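import Pool.Agent.Run7.h128.BL.Dich

/-!
The conditions of the Bombieri-Lang-Vojta conjecture for the complement of a hypersurface section,
in coordinates, and specialisation of curves from the complex numbers to number fields.
-/

set_option autoImplicit false
set_option linter.unusedSectionVars false

namespace Run7.h128.BL

open NumberField Height Finset MvPolynomial
open Run7.h128.AU

section defs

variable {k : Type} [Field k] {n m : ℕ} {κ : Type}

/-- Every nonconstant entire curve in `V = {G = 0} ∖ {T = 0}` lies in `V' = V ∩ {G' = 0}`. The curve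
is given by entire functions `f_0, …, f_n` (with common zeros allowed if `T` is a constant). -/
def EntireIn (σ : k →+* ℂ) (G : Fin m → MvPolynomial (Fin (n + 1)) k)
    (T : MvPolynomial (Fin (n + 1)) k) (G' : κ → MvPolynomial (Fin (n + 1)) k) : Prop :=
  ∀ f : ℂ → Fin (n + 1) → ℂ, Differentiable ℂ f →
    (∀ z i, eval₂ σ (f z) (G i) = 0) → (∀ z, eval₂ σ (f z) T ≠ 0) →
    (∃ a b z w, f z a * f w b ≠ f z b * f w a) → ∀ z l, eval₂ σ (f z) (G' l) = 0

/-- Every nonconstant morphism from the multiplicative group to `V = {G = 0} ∖ {T = 0}` lies in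
`V' = V ∩ {G' = 0}`. It is given by polynomials `p_0, …, p_n` such that `T(p)` is a monomial. -/
def GmIn (σ : k →+* ℂ) (G : Fin m → MvPolynomial (Fin (n + 1)) k)
    (T : MvPolynomial (Fin (n + 1)) k) (G' : κ → MvPolynomial (Fin (n + 1)) k) : Prop :=
  ∀ p : Fin (n + 1) → Polynomial ℂ, (∀ i, eval₂ (Polynomial.C.comp σ) p (G i) = 0) →
    (∃ (c : ℂ) (N : ℕ), c ≠ 0 ∧ eval₂ (Polynomial.C.comp σ) p T =
      Polynomial.C c * Polynomial.X ^ N) →
    (∃ a b z w, (p a).eval z * (p b).eval w ≠ (p b).eval z * (p a).eval w) →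
    ∀ l, eval₂ (Polynomial.C.comp σ) p (G' l) = 0

/-- For all number fields `L` and all finite `S`, the `S`-integral points of `V = {G = 0} ∖ {T = 0}`
over `L` outside `V' = V ∩ {G' = 0}` are finite in number; `δ` is the degree of `T`. -/
def IntegralFinite (G : Fin m → MvPolynomial (Fin (n + 1)) k)
    (T : MvPolynomial (Fin (n + 1)) k) (δ : ℕ) (G' : κ → MvPolynomial (Fin (n + 1)) k) : Prop :=
  ∀ (L : Type) [Field L] [NumberField L] [Algebra k L] (S : Finset (FinitePlace L)),
    {P : Projectivization L (Fin (n + 1) → L) | ∃ (x : Fin (n + 1) → L) (h : x ≠ 0),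
      P = Projectivization.mk L x h ∧ (∀ i, aeval x (G i) = 0) ∧ aeval x T ≠ 0 ∧
      (∀ w : FinitePlace L, w ∉ S → w (aeval x T) = (⨆ a, w (x a)) ^ δ) ∧
      ∃ l, aeval x (G' l) ≠ 0}.Finite

/-- For all number fields `L`, all finite `S` and all `r`: the height of the points `x = ∑ y_j` of
`V(L)` outside `V'` is at most `C (1 + N_S(y) + D_S(T(x), y))`. -/
def SumsBounded (G : Fin m → MvPolynomial (Fin (n + 1)) k)
    (T : MvPolynomial (Fin (n + 1)) k) (δ : ℕ) (G' : κ → MvPolynomial (Fin (n + 1)) k) : Prop :=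
  ∀ (L : Type) [Field L] [NumberField L] [Algebra k L] (S : Finset (FinitePlace L)) (r : ℕ),
    ∃ C : ℝ, ∀ y : Fin r → Fin (n + 1) → L, (fun a => ∑ j, y j a) ≠ 0 →
      (∀ i, aeval (fun a => ∑ j, y j a) (G i) = 0) → aeval (fun a => ∑ j, y j a) T ≠ 0 →
      (∃ l, aeval (fun a => ∑ j, y j a) (G' l) ≠ 0) →
      logHeight (fun a => ∑ j, y j a) ≤ C * (1 +
        (outside S fun p : Fin r × Fin (n + 1) => y p.1 p.2) +
        valDist S δ (fun p : Fin r × Fin (n + 1) => y p.1 p.2) (aeval (fun a => ∑ j, y j a) T))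

/-- For all number fields `L`, all finite `S` and all `r` there is `ε > 0` such that only finitely
many points `x` of `V(L)` outside `V'` are sums of `r` vectors with
`N_S(y) + D_S(T(x), y) ≤ ε h(x)`. -/
def SumsFinite (G : Fin m → MvPolynomial (Fin (n + 1)) k)
    (T : MvPolynomial (Fin (n + 1)) k) (δ : ℕ) (G' : κ → MvPolynomial (Fin (n + 1)) k) : Prop :=
  ∀ (L : Type) [Field L] [NumberField L] [Algebra k L] (S : Finset (FinitePlace L)) (r : ℕ),
    ∃ ε : ℝ, 0 < ε ∧
    {P : Projectivization L (Fin (n + 1) → L) | ∃ (y : Fin r → Fin (n + 1) → L)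
      (h : (fun a => ∑ j, y j a) ≠ 0), P = Projectivization.mk L _ h ∧
      (∀ i, aeval (fun a => ∑ j, y j a) (G i) = 0) ∧ aeval (fun a => ∑ j, y j a) T ≠ 0 ∧
      (∃ l, aeval (fun a => ∑ j, y j a) (G' l) ≠ 0) ∧
      (outside S fun p : Fin r × Fin (n + 1) => y p.1 p.2) +
        valDist S δ (fun p : Fin r × Fin (n + 1) => y p.1 p.2) (aeval (fun a => ∑ j, y j a) T) ≤
        ε * logHeight (fun a => ∑ j, y j a)}.Finite

end defs

/-- a point of a finitely generated domain over a number field -/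
theorem spec_hom (k : Type) [Field k] [NumberField k] (L : Type) [Field L] [Algebra k L]
    (A : Finset L) (g : Algebra.adjoin k (A : Set L)) (hg : g ≠ 0) :
    ∃ (K : Type) (_ : Field K) (_ : NumberField K) (_ : Algebra k K)
      (φ : Algebra.adjoin k (A : Set L) →ₐ[k] K), φ g ≠ 0 := by
  classical
  let B : Finset L := A ∪ {(g : L)⁻¹}
  let R : Subalgebra k L := Algebra.adjoin k (B : Set L)
  have hft : Algebra.FiniteType k R := by
    rw [← Subalgebra.fg_iff_finiteType]
    exact Subalgebra.fg_adjoin_finset B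
  have hle : Algebra.adjoin k (A : Set L) ≤ R := Algebra.adjoin_mono (by
    simp [B])
  have hinv : (g : L)⁻¹ ∈ R := Algebra.subset_adjoin (by simp [B])
  have hg' : (g : L) ≠ 0 := fun h => hg (Subtype.ext h)
  obtain ⟨m, hm⟩ := Ideal.exists_maximal R
  let K : Type := R ⧸ m
  let _ : Field K := Ideal.Quotient.field m
  let φ : R →ₐ[k] K := Ideal.Quotient.mkₐ k m
  have hφ : Function.Surjective φ := Ideal.Quotient.mkₐ_surjective k m
  have : Algebra.FiniteType k K := Algebra.FiniteType.of_surjective φ hφ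
  have : Module.Finite k K := finite_of_finite_type_of_isJacobsonRing k K
  have : NumberField K := NumberField.of_module_finite k K
  refine ⟨K, inferInstance, inferInstance, inferInstance,
    φ.comp (Subalgebra.inclusion hle), fun h => ?_⟩
  have h1 : (Subalgebra.inclusion hle g) * (⟨(g : L)⁻¹, hinv⟩ : R) = 1 := by
    apply Subtype.ext
    exact mul_inv_cancel₀ hg'
  have h2 := congrArg φ h1
  rw [map_mul, map_one] at h2
  have h3 : φ (Subalgebra.inclusion hle g) = 0 := h
  rw [h3, zero_mul] at h2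
  exact zero_ne_one h2

variable {k : Type} [Field k] [NumberField k] {n m : ℕ} {κ : Type}

theorem map_aeval_poly {R R' : Type} [CommRing R] [CommRing R'] [Algebra k R] [Algebra k R']
    (φ : R →ₐ[k] R') (p : Fin (n + 1) → Polynomial R) (F : MvPolynomial (Fin (n + 1)) k) :
    (aeval p F).map φ.toRingHom = aeval (fun a => (p a).map φ.toRingHom) F := by
  have h1 := congrArg (fun f => f F) (MvPolynomial.comp_aeval (R := k) p (Polynomial.mapAlgHom φ))
  exact h1

/-- **Specialisation** of a nonconstant map from the multiplicative group which is not in `V'`. -/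
theorem spec_curve (σ : k →+* ℂ) (G : Fin m → MvPolynomial (Fin (n + 1)) k)
    (T : MvPolynomial (Fin (n + 1)) k) (G' : κ → MvPolynomial (Fin (n + 1)) k)
    (h : ¬ GmIn σ G T G') :
    ∃ (L : Type) (_ : Field L) (_ : NumberField L) (_ : Algebra k L)
      (p : Fin (n + 1) → Polynomial L) (c : L) (N : ℕ) (l : κ),
      (∀ i, aeval p (G i) = 0) ∧ c ≠ 0 ∧ aeval p T = Polynomial.C c * Polynomial.X ^ N ∧
      (∃ a b z w, (p a).eval z * (p b).eval w ≠ (p b).eval z * (p a).eval w) ∧
      aeval p (G' l) ≠ 0 := by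
  classical
  unfold GmIn at h
  push Not at h
  obtain ⟨p, hG, ⟨c, N, hc, hT⟩, ⟨a, b, z, w, hab⟩, l, hl⟩ := h
  let _ : Algebra k ℂ := σ.toAlgebra
  have hev : ∀ F : MvPolynomial (Fin (n + 1)) k, eval₂ (Polynomial.C.comp σ) p F = aeval p F :=
    fun F => rfl
  rw [hev] at hT hl
  have hG : ∀ i, aeval p (G i) = 0 := fun i => hG i
  obtain ⟨w', hw'⟩ : ∃ w', (aeval p (G' l)).coeff w' ≠ 0 := by
    by_contra h
    push Not at h
    exact hl (Polynomial.ext fun w' => by rw [h w', Polynomial.coeff_zero])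
  set M : ℕ := Finset.univ.sup (fun i => (p i).natDegree) + 1 with hM
  have hd : ∀ i, (p i).natDegree < M := fun i => by
    have := Finset.le_sup (f := fun i => (p i).natDegree) (Finset.mem_univ i)
    omega
  let A : Finset ℂ := (Finset.univ.image (fun q : Fin (n + 1) × Fin M => (p q.1).coeff q.2)) ∪
    {c, z, w}
  let R : Subalgebra k ℂ := Algebra.adjoin k (A : Set ℂ)
  have hcR : ∀ (i : Fin (n + 1)) (j : ℕ), (p i).coeff j ∈ R := by
    intro i j
    by_cases hj : j < M
    · apply Algebra.subset_adjoin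
      simp only [A, Finset.coe_union, Set.mem_union, Finset.mem_coe]
      left
      exact Finset.mem_image.2 ⟨(i, ⟨j, hj⟩), Finset.mem_univ _, rfl⟩
    · rw [Polynomial.coeff_eq_zero_of_natDegree_lt (by have := hd i; omega)]
      exact R.zero_mem
  have hcc : c ∈ R := Algebra.subset_adjoin (by simp [A])
  have hzz : z ∈ R := Algebra.subset_adjoin (by simp [A])
  have hww : w ∈ R := Algebra.subset_adjoin (by simp [A])
  let pR : Fin (n + 1) → Polynomial R := fun i =>
    ∑ j : Fin M, Polynomial.C (⟨(p i).coeff j, hcR i j⟩ : R) * Polynomial.X ^ (j : ℕ)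
  have hpR : ∀ i, (pR i).map R.val.toRingHom = p i := by
    intro i
    show Polynomial.map _ (∑ j : Fin M, Polynomial.C (⟨(p i).coeff j, hcR i j⟩ : R) *
      Polynomial.X ^ (j : ℕ)) = p i
    rw [Polynomial.map_sum]
    conv_rhs => rw [(p i).as_sum_range' M (hd i)]
    rw [Finset.sum_range]
    refine Finset.sum_congr rfl fun j _ => ?_
    rw [Polynomial.map_mul, Polynomial.map_pow, Polynomial.map_C, Polynomial.map_X,
      Polynomial.C_mul_X_pow_eq_monomial]
    rfl
  have hpR' : (fun i => (pR i).map R.val.toRingHom) = p := funext hpR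
  have hinj : Function.Injective (Polynomial.map (R.val.toRingHom : R →+* ℂ)) :=
    Polynomial.map_injective _ Subtype.val_injective
  have hval : ∀ F : MvPolynomial (Fin (n + 1)) k,
      (aeval pR F).map R.val.toRingHom = aeval p F := by
    intro F
    rw [map_aeval_poly, hpR']
  have hGR : ∀ i, aeval pR (G i) = 0 := by
    intro i
    apply hinj
    show Polynomial.map _ _ = Polynomial.map _ _
    rw [hval, hG i, Polynomial.map_zero]
  have hTR : aeval pR T = Polynomial.C (⟨c, hcc⟩ : R) * Polynomial.X ^ N := by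
    apply hinj
    show Polynomial.map _ _ = Polynomial.map _ _
    rw [hval, hT, Polynomial.map_mul, Polynomial.map_pow, Polynomial.map_C, Polynomial.map_X]
    rfl
  -- the element which has to be kept
  let zR : R := ⟨z, hzz⟩
  let wR : R := ⟨w, hww⟩
  let vR : R := (pR a).eval zR * (pR b).eval wR - (pR b).eval zR * (pR a).eval wR
  have hevR : ∀ i (t : R), (((pR i).eval t : R) : ℂ) = (p i).eval (t : ℂ) := by
    intro i t
    rw [← hpR i, Polynomial.eval_map]
    exact (Polynomial.eval₂_at_apply (p := pR i) R.val.toRingHom t).symm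
  have hv : vR ≠ 0 := by
    intro h0
    have h1 : ((vR : R) : ℂ) = 0 := by rw [h0]; rfl
    apply hab
    rw [← sub_eq_zero, ← h1]
    show (p a).eval z * (p b).eval w - (p b).eval z * (p a).eval w =
      ((pR a).eval zR : R) * ((pR b).eval wR : R) - ((pR b).eval zR : R) * ((pR a).eval wR : R)
    rw [hevR, hevR, hevR, hevR]
  let γR : R := (aeval pR (G' l)).coeff w'
  have hγ : γR ≠ 0 := by
    intro h0
    apply hw'
    rw [← hval, Polynomial.coeff_map]
    have h1 : (aeval pR (G' l)).coeff w' = 0 := h0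
    rw [h1, map_zero]
  have hcR0 : (⟨c, hcc⟩ : R) ≠ 0 := fun h => hc (congrArg Subtype.val h)
  obtain ⟨K, iK, iN, iA, φ, hφ⟩ := spec_hom k ℂ A ((⟨c, hcc⟩ : R) * vR * γR)
    (mul_ne_zero (mul_ne_zero hcR0 hv) hγ)
  rw [map_mul, map_mul] at hφ
  have h1 : φ ⟨c, hcc⟩ ≠ 0 := left_ne_zero_of_mul (left_ne_zero_of_mul hφ)
  have h2 : φ vR ≠ 0 := right_ne_zero_of_mul (left_ne_zero_of_mul hφ)
  have h3 : φ γR ≠ 0 := right_ne_zero_of_mul hφ
  have hevK : ∀ i (t : R), ((pR i).map φ.toRingHom).eval (φ t) = φ ((pR i).eval t) := by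
    intro i t
    rw [Polynomial.eval_map]
    exact Polynomial.eval₂_at_apply (p := pR i) φ.toRingHom t
  refine ⟨K, iK, iN, iA, fun i => (pR i).map φ.toRingHom, φ ⟨c, hcc⟩, N, l, ?_, h1, ?_,
    ⟨a, b, φ zR, φ wR, ?_⟩, ?_⟩
  · intro i
    rw [← map_aeval_poly, hGR i, Polynomial.map_zero]
  · rw [← map_aeval_poly, hTR, Polynomial.map_mul, Polynomial.map_pow, Polynomial.map_C,
      Polynomial.map_X]
    rfl
  · intro h0
    apply h2
    show φ ((pR a).eval zR * (pR b).eval wR - (pR b).eval zR * (pR a).eval wR) = 0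
    rw [map_sub, map_mul, map_mul, ← hevK, ← hevK, ← hevK, ← hevK, h0, sub_self]
  · intro h0
    apply h3
    rw [← map_aeval_poly] at h0
    have h4 := congrArg (fun P => Polynomial.coeff P w') h0
    simp only [Polynomial.coeff_map, Polynomial.coeff_zero] at h4
    exact h4

end Run7.h128.BL
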